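import Pool.Agent.L7h10.AB.Stm2

/-!
# Project AB (helper10), part CC, the coprime half
-/

set_option autoImplicit false

namespace Pool.Agent.L7h16.AB

open Polynomial Pool.Agent.L7h10.AB

lemma card_fib {S A : Type} [Finite S] [Finite A] (φ : S → A) (m : ℕ)
    (h : ∀ a, Nat.card {x // φ x = a} ≤ m) : Nat.card S ≤ Nat.card A * m := by
  classical
  have : Fintype A := Fintype.ofFinite A
  rw [← Nat.card_congr (Equiv.sigmaFiberEquiv φ), Nat.card_sigma, Nat.card_eq_fintype_card]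
  have h1 : ∑ a : A, Nat.card {x // φ x = a} ≤ ∑ _a : A, m := Finset.sum_le_sum fun a _ => h a
  rw [Finset.sum_const, Finset.card_univ, smul_eq_mul] at h1
  exact h1

theorem cc_cop (hC : S_CARD) (hR : S_RES) (K : Type) [Field K] [Finite K] (p : ℕ) [CharP K p]
    (n : ℕ) (hn : 7 ≤ n) (hnp : n + 1 < p) :
    Nat.card {x : (Mon K 2 × Mon K (n - 3)) × (Mon K 2 × Mon K (n - 3)) // x.1 ≠ x.2 ∧
      derivative (x.1.1.1 ^ 2 * x.1.2.1) = derivative (x.2.1.1 ^ 2 * x.2.2.1) ∧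
      IsCoprime x.1.1.1 x.2.1.1} ≤ Nat.card K ^ (n - 2) := by
  classical
  have hf2 : Finite (Mon K 2) := (hC K 2).1
  have hf3 : Finite (Mon K (n - 3)) := (hC K (n - 3)).1
  have hdeg : ∀ (g : Mon K 2) (h : Mon K (n - 3)), (g.1 ^ 2 * h.1).natDegree = n + 1 := by
    intro g h
    rw [(g.2.1.pow 2).natDegree_mul h.2.1, g.2.1.natDegree_pow, g.2.2, h.2.2]
    omega
  have hconst : ∀ x : {x : (Mon K 2 × Mon K (n - 3)) × (Mon K 2 × Mon K (n - 3)) // x.1 ≠ x.2 ∧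
      derivative (x.1.1.1 ^ 2 * x.1.2.1) = derivative (x.2.1.1 ^ 2 * x.2.2.1) ∧
      IsCoprime x.1.1.1 x.2.1.1}, x.1.1.1.1 ^ 2 * x.1.1.2.1 - x.1.2.1.1 ^ 2 * x.1.2.2.1 =
      C ((x.1.1.1.1 ^ 2 * x.1.1.2.1 - x.1.2.1.1 ^ 2 * x.1.2.2.1).coeff 0) := by
    intro x
    apply Pool.Agent.L7h56.AB.const_of_deriv
    · refine lt_of_le_of_lt (natDegree_sub_le _ _) ?_
      rw [hdeg, hdeg, max_self]
      exact hnp
    · rw [derivative_sub, x.2.2.1, sub_self]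
  have hb := card_fib (fun x : {x : (Mon K 2 × Mon K (n - 3)) × (Mon K 2 × Mon K (n - 3)) // x.1 ≠ x.2 ∧
      derivative (x.1.1.1 ^ 2 * x.1.2.1) = derivative (x.2.1.1 ^ 2 * x.2.2.1) ∧
      IsCoprime x.1.1.1 x.2.1.1} => ((x.1.1.1, x.1.2.1, (x.1.1.1.1 ^ 2 * x.1.1.2.1 - x.1.2.1.1 ^ 2 * x.1.2.2.1).coeff 0) :
        Mon K 2 × Mon K 2 × K)) (Nat.card K ^ (n - 7)) ?_
  · refine hb.trans (le_of_eq ?_)
    rw [Nat.card_prod, Nat.card_prod, (hC K 2).2, ← mul_assoc, ← pow_add, ← pow_succ, ← pow_add]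
    congr 1
    omega
  · rintro ⟨g, g', c⟩
    by_cases hne : Nonempty {x : {x : (Mon K 2 × Mon K (n - 3)) × (Mon K 2 × Mon K (n - 3)) // x.1 ≠ x.2 ∧
      derivative (x.1.1.1 ^ 2 * x.1.2.1) = derivative (x.2.1.1 ^ 2 * x.2.2.1) ∧
      IsCoprime x.1.1.1 x.2.1.1} // ((x.1.1.1, x.1.2.1, (x.1.1.1.1 ^ 2 * x.1.1.2.1 - x.1.2.1.1 ^ 2 * x.1.2.2.1).coeff 0) :
        Mon K 2 × Mon K 2 × K) = (g, g', c)}
    · obtain ⟨x0⟩ := hne
      have key : ∀ x : {x : {x : (Mon K 2 × Mon K (n - 3)) × (Mon K 2 × Mon K (n - 3)) // x.1 ≠ x.2 ∧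
        derivative (x.1.1.1 ^ 2 * x.1.2.1) = derivative (x.2.1.1 ^ 2 * x.2.2.1) ∧
        IsCoprime x.1.1.1 x.2.1.1} // ((x.1.1.1, x.1.2.1, (x.1.1.1.1 ^ 2 * x.1.1.2.1 - x.1.2.1.1 ^ 2 * x.1.2.2.1).coeff 0) :
          Mon K 2 × Mon K 2 × K) = (g, g', c)}, x.1.1.1.1 = g ∧ x.1.1.2.1 = g' ∧
          g.1 ^ 2 * x.1.1.1.2.1 - g'.1 ^ 2 * x.1.1.2.2.1 = C c ∧ IsCoprime g.1 g'.1 := by
        intro x
        have h1 := x.2
        have h2 := hconst x.1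
        have h3 := x.1.2.2.2
        simp only [Prod.mk.injEq] at h1
        obtain ⟨h4, h5, h6⟩ := h1
        rw [h6, h4, h5] at h2
        rw [h4, h5] at h3
        exact ⟨h4, h5, h2, h3⟩
      obtain ⟨-, -, k3, k4⟩ := key x0
      have hu : (g'.1 ^ 2).Monic := g'.2.1.pow 2
      have hud : (g'.1 ^ 2).natDegree = 4 := by
        rw [g'.2.1.natDegree_pow, g'.2.2]
      have hres := hR K (n - 3) (g'.1 ^ 2) x0.1.1.1.2.1 hu (by rw [hud]; omega)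
      rw [hud] at hres
      have hfin : Finite {h : Mon K (n - 3) // g'.1 ^ 2 ∣ h.1 - x0.1.1.1.2.1} := inferInstance
      have hle := Nat.card_le_card_of_injective
        (fun x : {x : {x : (Mon K 2 × Mon K (n - 3)) × (Mon K 2 × Mon K (n - 3)) // x.1 ≠ x.2 ∧
        derivative (x.1.1.1 ^ 2 * x.1.2.1) = derivative (x.2.1.1 ^ 2 * x.2.2.1) ∧
        IsCoprime x.1.1.1 x.2.1.1} // ((x.1.1.1, x.1.2.1, (x.1.1.1.1 ^ 2 * x.1.1.2.1 - x.1.2.1.1 ^ 2 * x.1.2.2.1).coeff 0) :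
          Mon K 2 × Mon K 2 × K) = (g, g', c)} => (⟨x.1.1.1.2, ?_⟩ : {h : Mon K (n - 3) // g'.1 ^ 2 ∣ h.1 - x0.1.1.1.2.1})) ?_
      · rw [hres] at hle
        refine hle.trans (le_of_eq ?_)
        congr 1
      · obtain ⟨-, -, e3, -⟩ := key x
        have h1 : g'.1 ^ 2 ∣ g.1 ^ 2 * (x.1.1.1.2.1 - x0.1.1.1.2.1) := by
          refine ⟨x.1.1.2.2.1 - x0.1.1.2.2.1, ?_⟩
          linear_combination e3 - k3
        exact (IsCoprime.pow k4.symm).dvd_of_dvd_mul_left h1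
      · intro x y hxy
        have e := congrArg Subtype.val hxy
        simp only at e
        obtain ⟨a1, a2, a3, -⟩ := key x
        obtain ⟨b1, b2, b3, -⟩ := key y
        have e2 : g'.1 ^ 2 * x.1.1.2.2.1 = g'.1 ^ 2 * y.1.1.2.2.1 := by
          rw [e] at a3
          linear_combination b3 - a3
        have e3 := mul_left_cancel₀ hu.ne_zero e2
        apply Subtype.ext
        apply Subtype.ext
        refine Prod.ext (Prod.ext ?_ e) (Prod.ext ?_ (Subtype.ext e3))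
        · rw [a1, b1]
        · rw [a2, b2]
    · rw [not_nonempty_iff] at hne
      rw [Nat.card_eq_zero.2 (Or.inl hne)]
      exact Nat.zero_le _

end Pool.Agent.L7h16.AB
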